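import Pool.Agent.X304.Ell.Geom

/-!
# At most ten stationary points of the squared distance between a circle and a confocal ellipse

The circle has centre `F`, radius `R > 0` and lies in the plane through `F` spanned by the
orthonormal vectors `u₂, w₂`; the ellipse has focus `F`, semi-major axis `a`, eccentricity `e`
with `0 < e < 1`, and lies in the plane through `F` spanned by the orthonormal vectors `u₁, w₁`
(its centre is `F + a e u₁`).  Every pair formed by a circle and a noncircular ellipse with the
centre of the circle at a focus of the ellipse is of this form.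

## The proof

Let `v` be the polar angle of the point of the ellipse seen from `F` and let `n₁, n₂` be the
coordinates of the unit normal of the plane of the circle in the plane of the ellipse; put
`fa v = 1 - (n₁ cos v + n₂ sin v)^2`.  If `n₁^2 + n₂^2 < 1` then the stationarity condition on the
circle says that the point of the circle is `σ R` times the normalised projection of the point of
the ellipse, `σ = 1` or `σ = -1`, and the other condition becomes an equation
`G v = T H v`, `T = σ a (1 - e^2) / R`, on the circle of the `v`.  A count of the zeros of this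
equation on each half of the circle, by Rolle-type arguments after explicit changes of the unknown
function, gives at most 6 zeros for `T > 0` and at most 4 for `T < 0`.  If `n₁^2 + n₂^2 = 1`, the
planes are perpendicular and the system splits into two normal-line problems of an ellipse, one of
which has at most 2 and the other at most 4 solutions, and into 4 further solutions at most.
-/

set_option autoImplicit false

namespace Pool.Agent.Results.MP_4e5648_mp.CircleEllipse

open Pool.Agent.X304.Ell

/-- The squared distance between a circle and a noncircular ellipse of `ℝ³` such that the centre of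
the circle is a focus of the ellipse has at most ten stationary points. -/
theorem result :
    ∀ (F u₁ w₁ u₂ w₂ : EuclideanSpace ℝ (Fin 3)) (a e R : ℝ)
      (P P' Q Q' : ℝ → EuclideanSpace ℝ (Fin 3)),
      0 < a → 0 < e → e < 1 → 0 < R →
      ‖u₁‖ = 1 → ‖w₁‖ = 1 → inner ℝ u₁ w₁ = 0 →
      ‖u₂‖ = 1 → ‖w₂‖ = 1 → inner ℝ u₂ w₂ = 0 →
      (∀ s : ℝ, P s = F + (a * (e + Real.cos s)) • u₁
          + (a * Real.sqrt (1 - e ^ 2) * Real.sin s) • w₁) →
      (∀ s : ℝ, P' s = (-(a * Real.sin s)) • u₁
          + (a * Real.sqrt (1 - e ^ 2) * Real.cos s) • w₁) →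
      (∀ t : ℝ, Q t = F + (R * Real.cos t) • u₂ + (R * Real.sin t) • w₂) →
      (∀ t : ℝ, Q' t = (-(R * Real.sin t)) • u₂ + (R * Real.cos t) • w₂) →
      ({x : EuclideanSpace ℝ (Fin 3) × EuclideanSpace ℝ (Fin 3) |
          ∃ s t : ℝ, x = (P s, Q t) ∧ inner ℝ (P s - Q t) (P' s) = 0 ∧
            inner ℝ (P s - Q t) (Q' t) = 0}).Finite ∧
      ({x : EuclideanSpace ℝ (Fin 3) × EuclideanSpace ℝ (Fin 3) |
          ∃ s t : ℝ, x = (P s, Q t) ∧ inner ℝ (P s - Q t) (P' s) = 0 ∧
            inner ℝ (P s - Q t) (Q' t) = 0}).ncard ≤ 10 := by
  intro F u₁ w₁ u₂ w₂ a e R P P' Q Q' ha he0 he1 hR hu₁ hw₁ huw₁ hu₂ hw₂ huw₂ hP hP' hQ hQ'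
  have h := statSet_le (F := F) ha he0 he1 hR hu₁ hw₁ huw₁ hu₂ hw₂ huw₂
  simp only [hP, hP', hQ, hQ']
  exact h

end Pool.Agent.Results.MP_4e5648_mp.CircleEllipse
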